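import Mathlib
import Pool.Agent.Y509.CCyc.Sep
import Pool.Agent.Y509.CCyc.Prod
import Pool.Agent.Y509.CCyc.Lp
import Pool.Agent.Y509.CCyc.CZero

set_option autoImplicit false

open scoped ENNReal ZeroAtInfty

namespace Pool.Agent.Results.MP_0f7a95_an.ConvexCyclicSpaces

/-- `x` is a convex-cyclic vector of the bounded operator `T` on the complex normed space `X`: the
convex hull (real convex combinations) of the orbit `x, T x, T² x, …` is dense in `X`. -/
def IsConvexCyclicVector {X : Type} [NormedAddCommGroup X] [NormedSpace ℂ X] (T : X →L[ℂ] X)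
    (x : X) : Prop :=
  Dense (convexHull ℝ (Set.range fun n : ℕ => (T ^ n) x))

/-- `x` is a cyclic vector of `S`: the linear span of the orbit `x, S x, S² x, …` is dense. -/
def IsCyclicVector {X : Type} [NormedAddCommGroup X] [NormedSpace ℂ X] (S : X →L[ℂ] X)
    (x : X) : Prop :=
  Dense (Submodule.span ℂ (Set.range fun n : ℕ => (S ^ n) x) : Set X)

/-- `X` carries a convex-cyclic operator whose set of convex-cyclic vectors is not dense. -/
def HasCounterexample (X : Type) [NormedAddCommGroup X] [NormedSpace ℂ X] : Prop :=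
  ∃ T : X →L[ℂ] X, (∃ x, IsConvexCyclicVector T x) ∧ ¬ Dense {x | IsConvexCyclicVector T x}

/-- `X` has a complemented subspace isomorphic to `Z`. -/
def HasComplementedCopy (Z X : Type) [NormedAddCommGroup Z] [NormedSpace ℂ Z]
    [NormedAddCommGroup X] [NormedSpace ℂ X] : Prop :=
  ∃ (J : Z →L[ℂ] X) (Q : X →L[ℂ] Z), ∀ z, Q (J z) = z

/-- `S` is left invertible: it has a bounded left inverse. -/
def LeftInvertible {X : Type} [NormedAddCommGroup X] [NormedSpace ℂ X] (S : X →L[ℂ] X) : Prop :=
  ∃ L : X →L[ℂ] X, ∀ x, L (S x) = x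

/-- The operator `10 i + S`. -/
noncomputable def tenPlus {X : Type} [NormedAddCommGroup X] [NormedSpace ℂ X] (S : X →L[ℂ] X) :
    X →L[ℂ] X :=
  (10 * Complex.I) • (1 : X →L[ℂ] X) + S

theorem has_of_good {X : Type} [NormedAddCommGroup X] [NormedSpace ℂ X]
    (h : Pool.Agent.Y509.CCyc.Good X) : HasCounterexample X := by
  obtain ⟨S, h1, h2⟩ := h
  exact Pool.Agent.Y509.CCyc.exists_cc S h1 h2

theorem good_of_complemented {X Z : Type} [NormedAddCommGroup X] [NormedSpace ℂ X]
    [CompleteSpace X] [TopologicalSpace.SeparableSpace X] [NormedAddCommGroup Z] [NormedSpace ℂ Z]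
    (hZ : Pool.Agent.Y509.CCyc.Good Z) (J : Z →L[ℂ] X) (Q : X →L[ℂ] Z) (h : ∀ z, Q (J z) = z) :
    Pool.Agent.Y509.CCyc.Good X := by
  have e := ContinuousLinearEquiv.equivOfRightInverse Q J h
  have h1 : SecondCountableTopology X := UniformSpace.secondCountable_of_separable X
  have h2 : CompleteSpace Q.ker := Q.isClosed_ker.completeSpace_coe
  have h3 := Pool.Agent.Y509.CCyc.exists_cyclic Q.ker
  exact Pool.Agent.Y509.CCyc.good_congr e.symm (Pool.Agent.Y509.CCyc.good_prod hZ h3)

/-- **Convex-cyclic operators whose convex-cyclic vectors are not dense, on classical spaces.**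
(1) For every contraction `S` on a complex normed space, the convex-cyclic vectors of `10 i + S`
are exactly the cyclic vectors of `S`.
(2) Hence, if some operator on `X` has a cyclic vector but not a dense set of cyclic vectors, then
some operator on `X` has a convex-cyclic vector but not a dense set of convex-cyclic vectors.
(3) The cyclic vectors of a left invertible operator that is not surjective are not dense.
(4) Every separable complex Banach space with a complemented subspace isomorphic to `ℓ^p` for some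
`1 ≤ p < ∞`, or to `c₀`, carries a convex-cyclic operator whose convex-cyclic vectors are not
dense. -/
theorem result :
    (∀ (X : Type) [NormedAddCommGroup X] [NormedSpace ℂ X],
      (∀ S : X →L[ℂ] X, ‖S‖ ≤ 1 → ∀ x, IsConvexCyclicVector (tenPlus S) x ↔ IsCyclicVector S x) ∧
      (∀ S : X →L[ℂ] X, (∃ x, IsCyclicVector S x) → ¬ Dense {x | IsCyclicVector S x} →
        HasCounterexample X) ∧
      (∀ S : X →L[ℂ] X, LeftInvertible S → ¬ Function.Surjective S →
        ¬ Dense {x | IsCyclicVector S x})) ∧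
    (∀ (X : Type) [NormedAddCommGroup X] [NormedSpace ℂ X] [CompleteSpace X]
      [TopologicalSpace.SeparableSpace X],
      (∀ (p : ℝ≥0∞) [Fact (1 ≤ p)], p ≠ ∞ → HasComplementedCopy (lp (fun _ : ℕ => ℂ) p) X →
        HasCounterexample X) ∧
      (HasComplementedCopy C₀(ℕ, ℂ) X → HasCounterexample X)) := by
  refine ⟨fun X _ _ => ⟨fun S hS x => Pool.Agent.Y509.CCyc.cc_iff hS x,
    fun S h1 h2 => Pool.Agent.Y509.CCyc.exists_cc S h1 h2,
    fun S ⟨L, h1⟩ h2 => Pool.Agent.Y509.CCyc.not_dense_cyc S L h1 h2⟩,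
    fun X _ _ _ _ => ⟨fun p _ hp ⟨J, Q, h⟩ => ?_, fun ⟨J, Q, h⟩ => ?_⟩⟩
  · exact has_of_good (good_of_complemented ⟨_, ⟨_, Pool.Agent.Y509.CCyc.cyc_R p hp⟩,
      Pool.Agent.Y509.CCyc.not_dense_cyc _ (Pool.Agent.Y509.CCyc.Lop p hp)
        (Pool.Agent.Y509.CCyc.L_R p hp) (Pool.Agent.Y509.CCyc.R_not_surj p hp)⟩ J Q h)
  · exact has_of_good (good_of_complemented ⟨_, ⟨_, Pool.Agent.Y509.CCyc.cyc_Rz⟩,
      Pool.Agent.Y509.CCyc.not_dense_cyc _ Pool.Agent.Y509.CCyc.Lz Pool.Agent.Y509.CCyc.Lz_Rz
        Pool.Agent.Y509.CCyc.Rz_not_surj⟩ J Q h)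

end Pool.Agent.Results.MP_0f7a95_an.ConvexCyclicSpaces
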